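import Mathlib

/-!
Permutations with distinct sums, the count of Kezdy and Snevily (for MP_31c4fb_co and MP_2baa92_co).
-/

set_option autoImplicit false

namespace Run7.h282.KS

/-- the number of the permutations `π` of the `k` indices such that the `k` sums `a (π i) + i` are different
elements of the integers modulo `n` (the indices run from `0` to `k - 1`) -/
noncomputable def Phi (n k : ℕ) (a : Fin k → ZMod n) : ℕ :=
  {π : Equiv.Perm (Fin k) | Function.Injective (fun i : Fin k => a (π i) + ((i : ℕ) : ZMod n))}.ncard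

/-- the minimum `N(n, k)` of `Phi n k a` over all `a` -/
noncomputable def N (n k : ℕ) : ℕ := ⨅ a : Fin k → ZMod n, Phi n k a

theorem lift (m k : ℕ) (hm : k * (k - 1) < m) (a : Fin k → ZMod m) : ∃ A : Fin k → ℕ,
    ∀ u v i j : Fin k, a u + ((i : ℕ) : ZMod m) = a v + ((j : ℕ) : ZMod m) →
      A u + (i : ℕ) = A v + (j : ℕ) := by
  classical
  haveI : NeZero m := ⟨by omega⟩
  obtain ⟨c, hc⟩ : ∃ c : ZMod m, ∀ (u : Fin k) (t : Fin (k - 1)),
      c ≠ -(((t : ℕ) + 1 : ℕ) : ZMod m) - a u := by
    by_contra hcon
    push Not at hcon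
    have h1 : (Finset.univ : Finset (ZMod m)) ⊆ (Finset.univ : Finset (Fin k × Fin (k - 1))).image
        (fun p => -(((p.2 : ℕ) + 1 : ℕ) : ZMod m) - a p.1) := by
      intro c _
      obtain ⟨u, t, h⟩ := hcon c
      exact Finset.mem_image.2 ⟨(u, t), Finset.mem_univ _, h.symm⟩
    have h2 := (Finset.card_le_card h1).trans Finset.card_image_le
    rw [Finset.card_univ, Finset.card_univ, ZMod.card, Fintype.card_prod, Fintype.card_fin,
      Fintype.card_fin] at h2
    omega
  refine ⟨fun u => (a u + c).val, ?_⟩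
  have hle : ∀ u : Fin k, (a u + c).val + k ≤ m := by
    intro u
    by_contra hlt
    push Not at hlt
    have hv := ZMod.val_lt (a u + c)
    have hk : 0 < k := u.pos
    set t : ℕ := m - (a u + c).val - 1 with ht
    have htk : t < k - 1 := by omega
    refine hc u ⟨t, htk⟩ ?_
    have h1 : (((a u + c).val + (t + 1) : ℕ) : ZMod m) = 0 := by
      have : (a u + c).val + (t + 1) = m := by omega
      rw [this]; exact ZMod.natCast_self m
    rw [Nat.cast_add, ZMod.natCast_zmod_val] at h1
    have h2 : c = -(((t + 1 : ℕ)) : ZMod m) - a u := by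
      linear_combination h1
    exact h2
  intro u v i j h
  have h1 : (((a u + c).val + (i : ℕ) : ℕ) : ZMod m) = (((a v + c).val + (j : ℕ) : ℕ) : ZMod m) := by
    rw [Nat.cast_add, Nat.cast_add, ZMod.natCast_zmod_val, ZMod.natCast_zmod_val]
    linear_combination h
  have h2 := (ZMod.natCast_eq_natCast_iff' _ _ _).1 h1
  have h3 := hle u
  have h4 := hle v
  have h5 := i.isLt
  have h6 := j.isLt
  rwa [Nat.mod_eq_of_lt (by omega), Nat.mod_eq_of_lt (by omega)] at h2

theorem mono_n (n m k : ℕ) (hm : k * (k - 1) < m) : N n k ≤ N m k := by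
  haveI : Nonempty (Fin k → ZMod m) := ⟨fun _ => 0⟩
  refine le_ciInf fun a => ?_
  obtain ⟨A, hA⟩ := lift m k hm a
  refine (ciInf_le (OrderBot.bddBelow _) (fun u : Fin k => ((A u : ℕ) : ZMod n))).trans ?_
  refine Set.ncard_le_ncard ?_ (Set.toFinite _)
  intro π hπ i j hij
  apply hπ
  have h := hA _ _ _ _ hij
  have h' : ((A (π i) + (i : ℕ) : ℕ) : ZMod n) = ((A (π j) + (j : ℕ) : ℕ) : ZMod n) := by rw [h]
  simpa using h'

/-- the extension of `π` by the value `u` at the last place -/
def ext (k : ℕ) (u : Fin (k + 1)) (π : Equiv.Perm (Fin k)) : Equiv.Perm (Fin (k + 1)) :=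
  (finSuccEquivLast.trans (Equiv.optionCongr π)).trans (finSuccEquiv' u).symm

theorem ext_castSucc (k : ℕ) (u : Fin (k + 1)) (π : Equiv.Perm (Fin k)) (i : Fin k) :
    ext k u π i.castSucc = u.succAbove (π i) := by
  simp [ext]

theorem ext_last (k : ℕ) (u : Fin (k + 1)) (π : Equiv.Perm (Fin k)) :
    ext k u π (Fin.last k) = u := by
  simp [ext]

theorem mono_k (n m k : ℕ) (hm : (k + 1) * k < m) : N n k ≤ N m (k + 1) := by
  haveI : Nonempty (Fin (k + 1) → ZMod m) := ⟨fun _ => 0⟩
  refine le_ciInf fun a => ?_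
  obtain ⟨A, hA⟩ := lift m (k + 1) (by simpa using hm) a
  obtain ⟨u0, -, hu0⟩ := Finset.exists_max_image (Finset.univ : Finset (Fin (k + 1))) A
    ⟨0, Finset.mem_univ _⟩
  refine (ciInf_le (OrderBot.bddBelow _)
    (fun u : Fin k => ((A (u0.succAbove u) : ℕ) : ZMod n))).trans ?_
  refine Set.ncard_le_ncard_of_injOn (ext k u0) ?_ ?_ (Set.toFinite _)
  · intro π hπ
    have hlast : ∀ i : Fin k, A (ext k u0 π (Fin.last k)) + k ≠
        A (ext k u0 π i.castSucc) + (i : ℕ) := by
      intro i h
      rw [ext_last] at h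
      have h1 := hu0 (ext k u0 π i.castSucc) (Finset.mem_univ _)
      have h2 := i.isLt
      omega
    intro x y hxy
    have h := hA _ _ _ _ hxy
    induction x using Fin.lastCases with
    | last =>
      induction y using Fin.lastCases with
      | last => rfl
      | cast j => exact absurd h (by simpa using hlast j)
    | cast i =>
      induction y using Fin.lastCases with
      | last => exact absurd h.symm (by simpa using hlast i)
      | cast j =>
        rw [ext_castSucc, ext_castSucc] at h
        have h' : ((A (u0.succAbove (π i)) + (i : ℕ) : ℕ) : ZMod n) =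
            ((A (u0.succAbove (π j)) + (j : ℕ) : ℕ) : ZMod n) := by
          have : A (u0.succAbove (π i)) + (i : ℕ) = A (u0.succAbove (π j)) + (j : ℕ) := by
            simpa using h
          rw [this]
        have h2 : i = j := hπ (by simpa using h')
        rw [h2]
  · intro π _ π' _ h
    refine Equiv.ext fun i => ?_
    have h1 : ext k u0 π i.castSucc = ext k u0 π' i.castSucc := by rw [h]
    rw [ext_castSucc, ext_castSucc] at h1
    exact Fin.succAbove_right_injective h1

end Run7.h282.KS
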